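import Mathlib

/-!
# Uncountably many classes of `(-1, 1, t)`-threshold graphs

`C t` is the class of all finite graphs `G` for which there are real ranks `r v` such that distinct
vertices `v, w` are adjacent exactly when `r v + r w ∈ [-1, 1) ∪ [t, ∞)`.

We show that for all real `4 ≤ a < b` the class `C b` is not contained in the class `C a`.  Hence
the classes `C t`, `t ≥ 4`, are pairwise distinct, and the set `{C t : t > 1}` is uncountable.

The graph in `C b` that is not in `C a` has vertices `x_0, …, x_K, y_0, …, y_K` with ranks `i / N`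
and `- j / N`.  Only the adjacency between the `x_i` and the `y_j` is used.
-/

namespace Pool.Agent.Results.MP_922b49_co.UncountablyManyClasses

/-- `s ∈ [-1, 1) ∪ [t, ∞)`. -/
def Adm (t s : ℝ) : Prop := (-1 ≤ s ∧ s < 1) ∨ t ≤ s

/-- The class of all `(-1, 1, t)`-threshold graphs, as a set of graphs on the vertex sets
`{0, …, n - 1}`. -/
def C (t : ℝ) : Set (Σ n : ℕ, SimpleGraph (Fin n)) :=
  {G | ∃ r : Fin G.1 → ℝ, ∀ v w : Fin G.1, v ≠ w → (G.2.Adj v w ↔ Adm t (r v + r w))}

/-- The data of a representation of the cross pairs of the gadget. -/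
structure Rep (t : ℝ) (N A K : ℤ) (x y : ℤ → ℝ) : Prop where
  ht : 4 ≤ t
  hN : 7 ≤ N
  hA : t * N ≤ A
  adj : ∀ i j : ℤ, 0 ≤ i → i ≤ K → 0 ≤ j → j ≤ K → ((-N ≤ i - j ∧ i - j < N) ∨ A ≤ i - j) →
    (-1 ≤ x i + y j ∧ x i + y j < 1) ∨ t ≤ x i + y j
  nadj : ∀ i j : ℤ, 0 ≤ i → i ≤ K → 0 ≤ j → j ≤ K → ((N ≤ i - j ∧ i - j < A) ∨ i - j < -N) →
    x i + y j < -1 ∨ (1 ≤ x i + y j ∧ x i + y j < t)

/-- `x_i y_i` is an edge of middle type. -/
def Mid (x y : ℤ → ℝ) (i : ℤ) : Prop := -1 ≤ x i + y i ∧ x i + y i < 1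

section
variable {t : ℝ} {N A K : ℤ} {x y : ℤ → ℝ}

theorem Rep.A_ge (h : Rep t N A K x y) : 4 * N ≤ A := by
  have h1 := h.ht
  have h2 : (7 : ℝ) ≤ N := by exact_mod_cast h.hN
  have h3 := h.hA
  have : (4 : ℝ) * N ≤ A := by nlinarith
  exact_mod_cast this

theorem Rep.near (h : Rep t N A K x y) {i j : ℤ} (hi0 : 0 ≤ i) (hiK : i ≤ K) (hj0 : 0 ≤ j)
    (hjK : j ≤ K) (mi : Mid x y i) (mj : Mid x y j) (h1 : i - j < N) (h2 : j - i < N) :
    (-1 ≤ x i + y j ∧ x i + y j < 1) ∧ (-1 ≤ x j + y i ∧ x j + y i < 1) := by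
  have a1 := h.adj i j hi0 hiK hj0 hjK (Or.inl ⟨by omega, by omega⟩)
  have a2 := h.adj j i hj0 hjK hi0 hiK (Or.inl ⟨by omega, by omega⟩)
  have ht := h.ht
  obtain ⟨m1, m2⟩ := mi
  obtain ⟨m3, m4⟩ := mj
  rcases a1 with a1 | a1 <;> rcases a2 with a2 | a2
  · exact ⟨a1, a2⟩
  · exfalso; linarith [a1.1]
  · exfalso; linarith [a2.1]
  · exfalso; linarith

theorem Rep.far (h : Rep t N A K x y) {i j : ℤ} (hi0 : 0 ≤ i) (hiK : i ≤ K) (hj0 : 0 ≤ j)
    (hjK : j ≤ K) (mi : Mid x y i) (mj : Mid x y j) (h1 : N < j - i) (h2 : j - i < A) :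
    (1 ≤ x j + y i ∧ x i + y j < -1) ∨ (x j + y i < -1 ∧ 1 ≤ x i + y j) := by
  have a1 := h.nadj j i hj0 hjK hi0 hiK (Or.inl ⟨by omega, by omega⟩)
  have a2 := h.nadj i j hi0 hiK hj0 hjK (Or.inr (by omega))
  obtain ⟨m1, m2⟩ := mi
  obtain ⟨m3, m4⟩ := mj
  rcases a1 with a1 | a1 <;> rcases a2 with a2 | a2
  · exfalso; linarith
  · exact Or.inr ⟨a1, a2.1⟩
  · exact Or.inl ⟨a1.1, a2⟩
  · exfalso; linarith [a1.1, a2.1]

/-- The type of a nonadjacent pair does not change when the `x`-index moves inside a run. -/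
theorem Rep.const_x_aux (h : Rep t N A K x y) {q k : ℤ} (hqk : q + N < k) (hkK : k ≤ K) (n : ℕ) :
    ∀ p : ℤ, 0 ≤ p → p + n ≤ q → (∀ i, p ≤ i → i ≤ q → Mid x y i) →
      (x p + y k < -1 ↔ x (p + n) + y k < -1) := by
  have hN := h.hN
  induction n with
  | zero => intro p _ _ _; simp
  | succ n ih =>
    intro p hp hpq hrun
    push_cast at hpq ⊢
    rw [ih p hp (by omega) hrun]
    have e : p + ((n : ℤ) + 1) = (p + n) + 1 := by ring
    rw [e]
    have nr := h.near (i := p + n) (j := p + n + 1) (by omega) (by omega) (by omega) (by omega)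
      (hrun _ (by omega) (by omega)) (hrun _ (by omega) (by omega)) (by omega) (by omega)
    have m1 := hrun (p + n) (by omega) (by omega)
    have m2 := hrun (p + n + 1) (by omega) (by omega)
    have n1 := h.nadj (p + n) k (by omega) (by omega) (by omega) hkK (Or.inr (by omega))
    have n2 := h.nadj (p + n + 1) k (by omega) (by omega) (by omega) hkK (Or.inr (by omega))
    obtain ⟨m1a, m1b⟩ := m1
    obtain ⟨m2a, m2b⟩ := m2
    obtain ⟨⟨c1, c2⟩, ⟨c3, c4⟩⟩ := nr
    constructor
    · intro hl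
      rcases n2 with n2 | n2
      · exact n2
      · exfalso; linarith [n2.1]
    · intro hl
      rcases n1 with n1 | n1
      · exact n1
      · exfalso; linarith [n1.1]

theorem Rep.const_x (h : Rep t N A K x y) {p q k : ℤ} (hp : 0 ≤ p) (hqk : q + N < k)
    (hkK : k ≤ K) (hrun : ∀ i, p ≤ i → i ≤ q → Mid x y i) {j j' : ℤ} (hj : p ≤ j) (hjq : j ≤ q)
    (hj' : p ≤ j') (hj'q : j' ≤ q) : (x j + y k < -1 ↔ x j' + y k < -1) := by
  have key : ∀ a b : ℤ, p ≤ a → a ≤ b → b ≤ q → (x a + y k < -1 ↔ x b + y k < -1) := by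
    intro a b ha hab hb
    have := h.const_x_aux hqk hkK (b - a).toNat a (by omega) (by omega)
      (fun i hi1 hi2 => hrun i (by omega) hi2)
    have e : a + ((b - a).toNat : ℤ) = b := by omega
    rwa [e] at this
  rcases le_total j j' with hjj | hjj
  · exact key j j' hj hjj hj'q
  · exact (key j' j hj' hjj hjq).symm

/-- The type of a nonadjacent pair does not change when the `y`-index moves inside a run. -/
theorem Rep.const_y_aux (h : Rep t N A K x y) {j q : ℤ} (hj0 : 0 ≤ j) (hqK : q ≤ K) (n : ℕ) :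
    ∀ p : ℤ, j + N < p → p + n ≤ q → (∀ i, p ≤ i → i ≤ q → Mid x y i) →
      (x j + y p < -1 ↔ x j + y (p + n) < -1) := by
  have hN := h.hN
  induction n with
  | zero => intro p _ _ _; simp
  | succ n ih =>
    intro p hp hpq hrun
    push_cast at hpq ⊢
    rw [ih p hp (by omega) hrun]
    have e : p + ((n : ℤ) + 1) = (p + n) + 1 := by ring
    rw [e]
    have nr := h.near (i := p + n) (j := p + n + 1) (by omega) (by omega) (by omega) (by omega)
      (hrun _ (by omega) (by omega)) (hrun _ (by omega) (by omega)) (by omega) (by omega)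
    have m1 := hrun (p + n) (by omega) (by omega)
    have m2 := hrun (p + n + 1) (by omega) (by omega)
    have n1 := h.nadj j (p + n) (by omega) (by omega) (by omega) (by omega) (Or.inr (by omega))
    have n2 := h.nadj j (p + n + 1) (by omega) (by omega) (by omega) (by omega)
      (Or.inr (by omega))
    obtain ⟨m1a, m1b⟩ := m1
    obtain ⟨m2a, m2b⟩ := m2
    obtain ⟨⟨c1, c2⟩, ⟨c3, c4⟩⟩ := nr
    constructor
    · intro hl
      rcases n2 with n2 | n2
      · exact n2
      · exfalso; linarith [n2.1]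
    · intro hl
      rcases n1 with n1 | n1
      · exact n1
      · exfalso; linarith [n1.1]

theorem Rep.const_y (h : Rep t N A K x y) {j p q : ℤ} (hj0 : 0 ≤ j) (hjp : j + N < p)
    (hqK : q ≤ K) (hrun : ∀ i, p ≤ i → i ≤ q → Mid x y i) {k k' : ℤ} (hk : p ≤ k) (hkq : k ≤ q)
    (hk' : p ≤ k') (hk'q : k' ≤ q) : (x j + y k < -1 ↔ x j + y k' < -1) := by
  have key : ∀ a b : ℤ, p ≤ a → a ≤ b → b ≤ q → (x j + y a < -1 ↔ x j + y b < -1) := by
    intro a b ha hab hb
    have := h.const_y_aux hj0 hqK (b - a).toNat a (by omega) (by omega)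
      (fun i hi1 hi2 => hrun i (by omega) hi2)
    have e : a + ((b - a).toNat : ℤ) = b := by omega
    rwa [e] at this
  rcases le_total k k' with hkk | hkk
  · exact key k k' hk hkk hk'q
  · exact (key k' k hk' hkk hkq).symm

/-- Inside a run all nonadjacent pairs `(x_j, y_k)`, `k - j > N`, have the same type. -/
theorem Rep.run_type (h : Rep t N A K x y) {p q : ℤ} (hp : 0 ≤ p) (hqK : q ≤ K)
    (hrun : ∀ i, p ≤ i → i ≤ q → Mid x y i) {j k : ℤ} (hj : p ≤ j) (hjk : j + N < k)
    (hkq : k ≤ q) : (x j + y k < -1 ↔ x p + y q < -1) := by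
  have hN := h.hN
  have h1 : (x j + y k < -1 ↔ x p + y k < -1) :=
    h.const_x (p := p) (q := j) hp hjk (by omega) (fun i hi1 hi2 => hrun i hi1 (by omega))
      hj le_rfl le_rfl hj
  have h2 : (x p + y k < -1 ↔ x p + y q < -1) :=
    h.const_y (p := k) (q := q) hp (by omega) hqK (fun i hi1 hi2 => hrun i (by omega) hi2)
      le_rfl hkq hkq le_rfl
  exact h1.trans h2

theorem chain (f : ℤ → ℝ) (p w : ℤ) (c : ℝ) (m : ℕ)
    (h : ∀ a : ℕ, a < m → c ≤ f (p + (a * w + w)) - f (p + a * w)) :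
    m * c ≤ f (p + m * w) - f p := by
  induction m with
  | zero => simp
  | succ m ih =>
    have h1 := ih (fun a ha => h a (by omega))
    have h2 := h m (by omega)
    have e : p + ((m + 1 : ℕ) : ℤ) * w = p + (m * w + w) := by push_cast; ring
    rw [e]
    push_cast
    linarith

/-- The difference function. -/
def dd (x y : ℤ → ℝ) (i : ℤ) : ℝ := x i - y i

/-- In a run of length at least `m (N + 1)` the difference function varies by at least `2 m`. -/
theorem Rep.span (h : Rep t N A K x y) {p q : ℤ} (hp : 0 ≤ p) (hqK : q ≤ K)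
    (hrun : ∀ i, p ≤ i → i ≤ q → Mid x y i) (m : ℕ)
    (hm : p + m * (N + 1) ≤ q) : ∃ u v : ℤ, p ≤ u ∧ u ≤ q ∧ p ≤ v ∧ v ≤ q ∧
      2 * (m : ℝ) ≤ dd x y u - dd x y v := by
  have hN := h.hN
  have hA := h.A_ge
  have hbd : ∀ a : ℕ, a < m → p ≤ p + a * (N + 1) ∧ p + (a * (N + 1) + (N + 1)) ≤ q := by
    intro a ha
    have h1 : (0 : ℤ) ≤ a * (N + 1) := by positivity
    have h2 : ((a : ℤ) + 1) * (N + 1) ≤ m * (N + 1) := by
      apply mul_le_mul_of_nonneg_right _ (by omega)
      exact_mod_cast ha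
    constructor
    · omega
    · nlinarith
  have hend : p ≤ p + m * (N + 1) := by
    have : (0 : ℤ) ≤ m * (N + 1) := by positivity
    omega
  by_cases hty : x p + y q < -1
  · refine ⟨p + m * (N + 1), p, hend, hm, le_rfl, by omega, ?_⟩
    have := chain (dd x y) p (N + 1) 2 m (by
      intro a ha
      obtain ⟨b1, b2⟩ := hbd a ha
      have hlow := (h.run_type hp hqK hrun (j := p + a * (N + 1))
        (k := p + (a * (N + 1) + (N + 1))) b1 (by omega) b2).2 hty
      have hfar := h.far (i := p + a * (N + 1)) (j := p + (a * (N + 1) + (N + 1)))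
        (by omega) (by omega) (by omega) (by omega) (hrun _ b1 (by omega))
        (hrun _ (by omega) b2) (by omega) (by omega)
      rcases hfar with hf | hf
      · unfold dd; linarith [hf.1, hf.2]
      · exfalso; linarith [hf.2])
    linarith
  · refine ⟨p, p + m * (N + 1), le_rfl, by omega, hend, hm, ?_⟩
    have := chain (fun i => - dd x y i) p (N + 1) 2 m (by
      intro a ha
      obtain ⟨b1, b2⟩ := hbd a ha
      have hlow := (h.run_type hp hqK hrun (j := p + a * (N + 1))
        (k := p + (a * (N + 1) + (N + 1))) b1 (by omega) b2)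
      have hfar := h.far (i := p + a * (N + 1)) (j := p + (a * (N + 1) + (N + 1)))
        (by omega) (by omega) (by omega) (by omega) (hrun _ b1 (by omega))
        (hrun _ (by omega) b2) (by omega) (by omega)
      rcases hfar with hf | hf
      · exact absurd (hlow.1 hf.2) hty
      · simp only [dd]; linarith [hf.1, hf.2])
    linarith

/-- If `(x_j, y_k)` is of high type and `k - j ≥ A`, then `-4 < d_k - d_j < 0`. -/
theorem Rep.high_far (h : Rep t N A K x y) {j k : ℤ} (hj0 : 0 ≤ j) (hkK : k ≤ K)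
    (mj : Mid x y j) (mk : Mid x y k) (hjk : A ≤ k - j) (hH : 1 ≤ x j + y k) :
    dd x y j - 4 < dd x y k ∧ dd x y k < dd x y j := by
  have hN := h.hN
  have hA := h.A_ge
  have ht := h.ht
  have a1 := h.adj k j (by omega) hkK hj0 (by omega) (Or.inr hjk)
  obtain ⟨m1, m2⟩ := mj
  obtain ⟨m3, m4⟩ := mk
  unfold dd
  rcases a1 with a1 | a1
  · constructor
    · linarith [a1.1, a1.2]
    · linarith [a1.1, a1.2]
  · exfalso; linarith

/-- No exceptional index in the interior. -/
theorem Rep.mid_interior (h : Rep t N A K x y) {i : ℤ} (hi1 : A - 1 ≤ i) (hi2 : i + A - 1 ≤ K) :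
    Mid x y i := by
  have hN := h.hN
  have hA := h.A_ge
  have ht := h.ht
  by_contra hcon
  have hT : t ≤ x i + y i := by
    have a := h.adj i i (by omega) (by omega) (by omega) (by omega)
      (Or.inl ⟨by omega, by omega⟩)
    rcases a with a | a
    · exact absurd a hcon
    · exact a
  -- all indices at distance in `(N, A)` are non-exceptional and of high type with `i`
  have key : ∀ j : ℤ, (N < i - j ∧ i - j < A) ∨ (N < j - i ∧ j - i < A) →
      Mid x y j ∧ (1 ≤ x i + y j ∧ x i + y j < t) ∧ (1 ≤ x j + y i ∧ x j + y i < t) := by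
    intro j hj
    have n1 : x i + y j < -1 ∨ (1 ≤ x i + y j ∧ x i + y j < t) := by
      apply h.nadj i j (by omega) (by omega) (by omega) (by omega)
      omega
    have n2 : x j + y i < -1 ∨ (1 ≤ x j + y i ∧ x j + y i < t) := by
      apply h.nadj j i (by omega) (by omega) (by omega) (by omega)
      omega
    have n1t : x i + y j < t := by
      rcases n1 with n1 | n1
      · linarith
      · exact n1.2
    have n2t : x j + y i < t := by
      rcases n2 with n2 | n2
      · linarith
      · exact n2.2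
    have a := h.adj j j (by omega) (by omega) (by omega) (by omega)
      (Or.inl ⟨by omega, by omega⟩)
    have mj : Mid x y j := by
      rcases a with a | a
      · exact a
      · exfalso; linarith
    refine ⟨mj, ⟨?_, n1t⟩, ⟨?_, n2t⟩⟩
    · rcases n1 with n1 | n1
      · exfalso; linarith [mj.1]
      · exact n1.1
    · rcases n2 with n2 | n2
      · exfalso; linarith [mj.1]
      · exact n2.1
  have runL : ∀ j, i - A + 1 ≤ j → j ≤ i - N - 1 → Mid x y j :=
    fun j h1 h2 => (key j (Or.inl ⟨by omega, by omega⟩)).1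
  have runR : ∀ j, i + N + 1 ≤ j → j ≤ i + A - 1 → Mid x y j :=
    fun j h1 h2 => (key j (Or.inr ⟨by omega, by omega⟩)).1
  -- cross types are constant
  have cross : ∀ j k, i - A + 1 ≤ j → j ≤ i - N - 1 → i + N + 1 ≤ k → k ≤ i + A - 1 →
      (x j + y k < -1 ↔ x (i - A + 1) + y (i + N + 1) < -1) := by
    intro j k hj1 hj2 hk1 hk2
    have c1 : (x j + y k < -1 ↔ x (i - A + 1) + y k < -1) :=
      h.const_x (p := i - A + 1) (q := i - N - 1) (by omega) (by omega) (by omega) runL
        hj1 hj2 le_rfl (by omega)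
    have c2 : (x (i - A + 1) + y k < -1 ↔ x (i - A + 1) + y (i + N + 1) < -1) :=
      h.const_y (p := i + N + 1) (q := i + A - 1) (by omega) (by omega) (by omega) runR
        hk1 hk2 le_rfl (by omega)
    exact c1.trans c2
  -- number of steps
  obtain ⟨m, hm1, hm2⟩ : ∃ m : ℕ, (m : ℤ) * (N + 1) ≤ A - N - 2 ∧
      A - N - 2 < ((m : ℤ) + 1) * (N + 1) := by
    refine ⟨((A - N - 2) / (N + 1)).toNat, ?_, ?_⟩
    · have h0 : 0 ≤ (A - N - 2) / (N + 1) := Int.ediv_nonneg (by omega) (by omega)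
      rw [Int.toNat_of_nonneg h0]
      exact Int.ediv_mul_le _ (by omega)
    · have h0 : 0 ≤ (A - N - 2) / (N + 1) := Int.ediv_nonneg (by omega) (by omega)
      rw [Int.toNat_of_nonneg h0]
      exact Int.lt_ediv_add_one_mul_self _ (by omega)
  have hm3 : 2 ≤ m := by
    by_contra hlt
    have : (m : ℤ) + 1 ≤ 2 := by omega
    nlinarith
  obtain ⟨u1, v1, hu1, hu1', hv1, hv1', hs1⟩ :=
    h.span (p := i - A + 1) (q := i - N - 1) (by omega) (by omega) runL m (by omega)
  obtain ⟨u2, v2, hu2, hu2', hv2, hv2', hs2⟩ :=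
    h.span (p := i + N + 1) (q := i + A - 1) (by omega) (by omega) runR m (by omega)
  have hm3' : (2 : ℝ) ≤ m := by exact_mod_cast hm3
  by_cases hc : x (i - A + 1) + y (i + N + 1) < -1
  · -- cross type low: the right run lies above the left run
    have habove : dd x y u1 < dd x y v2 := by
      have hlow : x u1 + y v2 < -1 := (cross u1 v2 hu1 hu1' hv2 hv2').2 hc
      rcases lt_or_ge (v2 - u1) A with hlt | hge
      · have hf := h.far (i := u1) (j := v2) (by omega) (by omega) (by omega) (by omega)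
          (runL _ hu1 hu1') (runR _ hv2 hv2') (by omega) hlt
        rcases hf with hf | hf
        · unfold dd; linarith [hf.1, hf.2]
        · exfalso; linarith [hf.2]
      · have ha := h.adj v2 u1 (by omega) (by omega) (by omega) (by omega) (Or.inr hge)
        unfold dd
        rcases ha with ha | ha
        · linarith [ha.1]
        · linarith
    obtain ⟨_, ⟨k1, k2⟩, ⟨k3, k4⟩⟩ := key u2 (Or.inr ⟨by omega, by omega⟩)
    obtain ⟨_, ⟨l1, l2⟩, ⟨l3, l4⟩⟩ := key v1 (Or.inl ⟨by omega, by omega⟩)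
    have hup : dd x y u2 - dd x y v1 < 2 * (t - 1) := by
      unfold dd; linarith
    have h2m : 2 * (m : ℝ) < t - 1 := by linarith
    have hN' : (7 : ℝ) ≤ N := by exact_mod_cast hN
    have hm2' : (A : ℝ) - N - 2 + 1 ≤ ((m : ℝ) + 1) * (N + 1) := by
      have : A - N - 2 + 1 ≤ ((m : ℤ) + 1) * (N + 1) := by omega
      exact_mod_cast this
    have hAt := h.hA
    have e1 : 2 * ((A : ℝ) - 2 * N - 2) ≤ 2 * m * (N + 1) := by linarith
    have e2 : 2 * (m : ℝ) * (N + 1) ≤ (t - 1) * (N + 1) := by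
      apply mul_le_mul_of_nonneg_right h2m.le (by linarith)
    have e3 : 2 * (t * N - 2 * N - 2) ≤ (t - 1) * (N + 1) := by linarith
    have e4 : 0 < 2 * (m : ℝ) * (N + 1) := by positivity
    have e5 : 2 * (m : ℝ) * (N + 1) < (t - 1) * (N + 1) :=
      mul_lt_mul_of_pos_right h2m (by linarith)
    nlinarith
  · -- cross type high: the right run lies in an interval of length four
    have hhigh : ∀ k, i + N + 1 ≤ k → k ≤ i + A - 1 → 1 ≤ x (i - A + 1) + y k := by
      intro k hk1 hk2
      have hn := h.nadj (i - A + 1) k (by omega) (by omega) (by omega) (by omega)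
        (Or.inr (by omega))
      rcases hn with hn | hn
      · exact absurd ((cross (i - A + 1) k le_rfl (by omega) hk1 hk2).1 hn) hc
      · exact hn.1
    have r1 := h.high_far (j := i - A + 1) (k := u2) (by omega) (by omega)
      (runL _ le_rfl (by omega)) (runR _ hu2 hu2') (by omega) (hhigh _ hu2 hu2')
    have r2 := h.high_far (j := i - A + 1) (k := v2) (by omega) (by omega)
      (runL _ le_rfl (by omega)) (runR _ hv2 hv2') (by omega) (hhigh _ hv2 hv2')
    linarith [r1.2, r2.1]

/-- In the interior all pairs `(x_j, y_k)` with `k - j > N` have sum less than `-1`. -/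
theorem Rep.low (h : Rep t N A K x y) (hK : 3 * A + 2 * N + 2 ≤ K) {j k : ℤ}
    (hj : A - 1 ≤ j) (hjk : j + N < k) (hk : k + A - 1 ≤ K) : x j + y k < -1 := by
  have hN := h.hN
  have hA := h.A_ge
  have hrun : ∀ i, A - 1 ≤ i → i ≤ K - A + 1 → Mid x y i :=
    fun i h1 h2 => h.mid_interior h1 (by omega)
  by_contra hcon
  have hty : ¬ (x (A - 1) + y (K - A + 1) < -1) := by
    intro hlt
    exact hcon ((h.run_type (p := A - 1) (q := K - A + 1) (by omega) (by omega) hrun hj hjk
      (by omega)).2 hlt)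
  have hall : ∀ j k, A - 1 ≤ j → j + N < k → k ≤ K - A + 1 → 1 ≤ x j + y k := by
    intro j k h1 h2 h3
    have hn := h.nadj j k (by omega) (by omega) (by omega) (by omega) (Or.inr (by omega))
    rcases hn with hn | hn
    · exact absurd ((h.run_type (p := A - 1) (q := K - A + 1) (by omega) (by omega) hrun h1 h2
        h3).1 hn) hty
    · exact hn.1
  have r1 := h.high_far (j := A - 1) (k := A - 1 + A) (by omega) (by omega)
    (hrun _ (by omega) (by omega)) (hrun _ (by omega) (by omega)) (by omega)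
    (hall _ _ (by omega) (by omega) (by omega))
  have r2 := h.high_far (j := A - 1) (k := A - 1 + A + (N + 1) + (N + 1)) (by omega) (by omega)
    (hrun _ (by omega) (by omega)) (hrun _ (by omega) (by omega)) (by omega)
    (hall _ _ (by omega) (by omega) (by omega))
  have f1 := h.far (i := A - 1 + A) (j := A - 1 + A + (N + 1)) (by omega) (by omega) (by omega)
    (by omega) (hrun _ (by omega) (by omega)) (hrun _ (by omega) (by omega)) (by omega) (by omega)
  have f2 := h.far (i := A - 1 + A + (N + 1)) (j := A - 1 + A + (N + 1) + (N + 1)) (by omega)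
    (by omega) (by omega) (by omega) (hrun _ (by omega) (by omega))
    (hrun _ (by omega) (by omega)) (by omega) (by omega)
  have g1 := hall (A - 1 + A) (A - 1 + A + (N + 1)) (by omega) (by omega) (by omega)
  have g2 := hall (A - 1 + A + (N + 1)) (A - 1 + A + (N + 1) + (N + 1)) (by omega) (by omega)
    (by omega)
  unfold dd at r1 r2
  rcases f1 with f1 | f1
  · linarith [f1.2]
  · rcases f2 with f2 | f2
    · linarith [f2.2]
    · linarith [f1.1, f2.1, r1.1, r1.2, r2.1, r2.2]

/-- The final inequality. -/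
theorem Rep.bound (h : Rep t N A K x y)
    (hK : 3 * A + 3 * N + 3 + (A - N - 2) * (2 * N + 2) ≤ K) :
    (A : ℝ) ≤ (N + 1) * t + 1 := by
  have hN := h.hN
  have hA := h.A_ge
  have hprod : 0 ≤ (A - N - 2) * (2 * N + 2) := mul_nonneg (by omega) (by omega)
  have hK' : 3 * A + 2 * N + 2 ≤ K := by omega
  have hrun : ∀ i, A - 1 ≤ i → i ≤ K - A + 1 → Mid x y i :=
    fun i h1 h2 => h.mid_interior h1 (by omega)
  -- type of far pairs in the interior
  have hhl : ∀ j k : ℤ, A - 1 ≤ j → k + A - 1 ≤ K → N < k - j → k - j < A →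
      1 ≤ x k + y j ∧ x j + y k < -1 := by
    intro j k h1 h2 h3 h4
    have hl := h.low hK' (j := j) (k := k) h1 (by omega) h2
    have hf := h.far (i := j) (j := k) (by omega) (by omega) (by omega) (by omega)
      (hrun _ (by omega) (by omega)) (hrun _ (by omega) (by omega)) h3 h4
    rcases hf with hf | hf
    · exact hf
    · exfalso; linarith [hf.2]
  obtain ⟨u, hu⟩ : ∃ u : ℕ, (u : ℤ) = A - N - 2 := ⟨(A - N - 2).toNat, by omega⟩
  obtain ⟨w, hw⟩ : ∃ w : ℕ, (w : ℤ) = 2 * N + 2 := ⟨(2 * N + 2).toNat, by omega⟩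
  have c1 := chain x (A + N) (w : ℤ) 2 u (by
    intro a ha
    have b1 : (0 : ℤ) ≤ a * w := by positivity
    have b2 : (a : ℤ) * w + w ≤ (A - N - 2) * (2 * N + 2) := by
      rw [← hu, ← hw]
      have : ((a : ℤ) + 1) * w ≤ u * w := by
        apply mul_le_mul_of_nonneg_right _ (by omega)
        exact_mod_cast ha
      linarith
    have g1 := hhl (A + N + a * w) (A + N + a * w + (N + 1)) (by omega) (by omega) (by omega)
      (by omega)
    have g2 := hhl (A + N + a * w + (N + 1)) (A + N + (a * w + w)) (by omega) (by omega)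
      (by omega) (by omega)
    linarith [g1.2, g2.1])
  have c2 := chain (fun i => - x i) (A + N) (u : ℤ) (-(t - 1)) w (by
    intro a ha
    have b1 : (0 : ℤ) ≤ a * u := by positivity
    have b2 : (a : ℤ) * u + u ≤ (A - N - 2) * (2 * N + 2) := by
      rw [← hu, ← hw]
      have : ((a : ℤ) + 1) * u ≤ w * u := by
        apply mul_le_mul_of_nonneg_right _ (by omega)
        exact_mod_cast ha
      linarith
    have g1 := hhl (A + N + a * u - (N + 1)) (A + N + a * u) (by omega) (by omega) (by omega)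
      (by omega)
    have g2 := h.nadj (A + N + (a * u + u)) (A + N + a * u - (N + 1)) (by omega) (by omega)
      (by omega) (by omega) (Or.inl ⟨by omega, by omega⟩)
    have g3 : x (A + N + (a * u + u)) + y (A + N + a * u - (N + 1)) < t := by
      rcases g2 with g2 | g2
      · linarith [h.ht]
      · exact g2.2
    linarith [g1.1])
  have e : (u : ℤ) * w = w * u := mul_comm _ _
  rw [e] at c1
  have hfin : (u : ℝ) * 2 ≤ w * (t - 1) := by linarith
  have hu' : (u : ℝ) = A - N - 2 := by exact_mod_cast congrArg (Int.cast : ℤ → ℝ) hu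
  have hw' : (w : ℝ) = 2 * N + 2 := by exact_mod_cast congrArg (Int.cast : ℤ → ℝ) hw
  rw [hu', hw'] at hfin
  linarith

end

/-- For `4 ≤ a < b` the class `C b` is not contained in the class `C a`. -/
theorem not_subset {a b : ℝ} (ha : 4 ≤ a) (hab : a < b) : ¬ (C b ⊆ C a) := by
  intro hsub
  obtain ⟨N0, hN0⟩ := exists_nat_gt ((a + 1) / (b - a))
  obtain ⟨N, hN7, hNN⟩ : ∃ N : ℕ, 7 ≤ N ∧ N0 ≤ N := ⟨max 7 N0, le_max_left _ _, le_max_right _ _⟩
  have hNgt : a + 1 < (b - a) * N := by
    have h1 : (a + 1) / (b - a) < N := lt_of_lt_of_le hN0 (by exact_mod_cast hNN)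
    rwa [div_lt_iff₀ (by linarith), mul_comm] at h1
  have hNpos : (0 : ℝ) < N := by
    have : (7 : ℝ) ≤ N := by exact_mod_cast hN7
    linarith
  obtain ⟨A, hA⟩ : ∃ A : ℤ, A = ⌈b * N⌉ := ⟨_, rfl⟩
  obtain ⟨K, hK⟩ : ∃ K : ℕ, 3 * A + 3 * N + 3 + (A - N - 2) * (2 * N + 2) ≤ (K : ℤ) :=
    ⟨(3 * A + 3 * N + 3 + (A - N - 2) * (2 * N + 2)).toNat, Int.self_le_toNat _⟩
  -- the graph
  let r : Fin (2 * (K + 1)) → ℝ := fun v =>
    if (v : ℕ) ≤ K then ((v : ℕ) : ℝ) / N else -(((v : ℕ) : ℝ) - (K + 1)) / N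
  let G : SimpleGraph (Fin (2 * (K + 1))) :=
    { Adj := fun v w => v ≠ w ∧ Adm b (r v + r w)
      symm := ⟨fun v w hvw => ⟨hvw.1.symm, by rw [add_comm]; exact hvw.2⟩⟩
      loopless := ⟨fun v hv => hv.1 rfl⟩ }
  have hGb : (⟨2 * (K + 1), G⟩ : Σ n : ℕ, SimpleGraph (Fin n)) ∈ C b := by
    refine ⟨r, fun v w hvw => ?_⟩
    show (v ≠ w ∧ Adm b (r v + r w)) ↔ Adm b (r v + r w)
    exact ⟨fun h => h.2, fun h => ⟨hvw, h⟩⟩
  obtain ⟨r', hr'⟩ := hsub hGb
  change Fin (2 * (K + 1)) → ℝ at r'
  -- the vertices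
  let X : ℤ → Fin (2 * (K + 1)) := fun i => ⟨min i.toNat K, by omega⟩
  let Y : ℤ → Fin (2 * (K + 1)) := fun i => ⟨K + 1 + min i.toNat K, by omega⟩
  have hXY : ∀ i j, X i ≠ Y j := by
    intro i j h
    have := congrArg Fin.val h
    simp only [X, Y] at this
    omega
  have hrX : ∀ i : ℤ, 0 ≤ i → i ≤ K → r (X i) = (i : ℝ) / N := by
    intro i h0 h1
    have e : ((X i : Fin (2 * (K + 1))) : ℕ) = i.toNat := by simp only [X]; omega
    have e2 : ((i.toNat : ℕ) : ℝ) = (i : ℝ) := by
      have : ((i.toNat : ℕ) : ℤ) = i := by omega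
      exact_mod_cast congrArg (Int.cast : ℤ → ℝ) this
    simp only [r]
    rw [if_pos (by rw [e]; omega), e, e2]
  have hrY : ∀ i : ℤ, 0 ≤ i → i ≤ K → r (Y i) = -(i : ℝ) / N := by
    intro i h0 h1
    have e : ((Y i : Fin (2 * (K + 1))) : ℕ) = K + 1 + i.toNat := by simp only [Y]; omega
    have e2 : ((i.toNat : ℕ) : ℝ) = (i : ℝ) := by
      have : ((i.toNat : ℕ) : ℤ) = i := by omega
      exact_mod_cast congrArg (Int.cast : ℤ → ℝ) this
    simp only [r]
    rw [if_neg (by rw [e]; omega), e]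
    push_cast
    rw [e2]
    ring
  have hsum : ∀ i j : ℤ, 0 ≤ i → i ≤ K → 0 ≤ j → j ≤ K →
      r (X i) + r (Y j) = ((i - j : ℤ) : ℝ) / N := by
    intro i j h1 h2 h3 h4
    rw [hrX i h1 h2, hrY j h3 h4]
    push_cast
    ring
  have hadj : ∀ i j : ℤ, 0 ≤ i → i ≤ K → 0 ≤ j → j ≤ K →
      (Adm b (((i - j : ℤ) : ℝ) / N) ↔ Adm a (r' (X i) + r' (Y j))) := by
    intro i j h1 h2 h3 h4
    have e1 := hr' (X i) (Y j) (hXY i j)
    have e2 : G.Adj (X i) (Y j) ↔ Adm b (r (X i) + r (Y j)) :=
      ⟨fun h => h.2, fun h => ⟨hXY i j, h⟩⟩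
    rw [hsum i j h1 h2 h3 h4] at e2
    exact e2.symm.trans e1
  have hbN : b * N ≤ A := by rw [hA]; exact Int.le_ceil _
  have hrep : Rep a N A K (fun i => r' (X i)) (fun i => r' (Y i)) := by
    refine ⟨ha, by exact_mod_cast hN7, ?_, ?_, ?_⟩
    · push_cast
      nlinarith
    · intro i j h1 h2 h3 h4 hcase
      have : Adm b (((i - j : ℤ) : ℝ) / N) := by
        rcases hcase with ⟨c1, c2⟩ | c1
        · left
          constructor
          · rw [le_div_iff₀ hNpos]
            have : ((-N : ℤ) : ℝ) ≤ ((i - j : ℤ) : ℝ) := by exact_mod_cast c1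
            push_cast at this ⊢
            linarith
          · rw [div_lt_one hNpos]
            exact_mod_cast c2
        · right
          rw [le_div_iff₀ hNpos]
          have : (A : ℝ) ≤ ((i - j : ℤ) : ℝ) := by exact_mod_cast c1
          linarith
      exact (hadj i j h1 h2 h3 h4).1 this
    · intro i j h1 h2 h3 h4 hcase
      have : ¬ Adm b (((i - j : ℤ) : ℝ) / N) := by
        rcases hcase with ⟨c1, c2⟩ | c1
        · have g1 : (1 : ℝ) ≤ ((i - j : ℤ) : ℝ) / N := by
            rw [one_le_div hNpos]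
            exact_mod_cast c1
          have g2 : ((i - j : ℤ) : ℝ) / N < b := by
            rw [div_lt_iff₀ hNpos]
            rw [hA] at c2
            exact Int.lt_ceil.1 c2
          rintro (⟨_, h⟩ | h) <;> linarith
        · have g1 : ((i - j : ℤ) : ℝ) / N < -1 := by
            rw [div_lt_iff₀ hNpos]
            have : ((i - j : ℤ) : ℝ) < ((-N : ℤ) : ℝ) := by exact_mod_cast c1
            push_cast at this ⊢
            linarith
          rintro (⟨h, _⟩ | h) <;> linarith
      have hn : ¬ Adm a (r' (X i) + r' (Y j)) := fun hh => this ((hadj i j h1 h2 h3 h4).2 hh)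
      unfold Adm at hn
      push Not at hn
      obtain ⟨n1, n2⟩ := hn
      rcases lt_or_ge (r' (X i) + r' (Y j)) (-1) with hlt | hge
      · exact Or.inl hlt
      · exact Or.inr ⟨n1 hge, n2⟩
  have hfin := hrep.bound (by exact_mod_cast hK)
  push_cast at hfin
  nlinarith

theorem injOn : Set.InjOn C (Set.Ici (4 : ℝ)) := by
  intro a ha b hb hab
  rcases lt_trichotomy a b with h | h | h
  · exact absurd hab.symm.subset (not_subset ha h)
  · exact h
  · exact absurd hab.subset (not_subset hb h)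

/-- There are uncountably many classes `C t`, `t > 1`; moreover the classes `C t` with `t ≥ 4` are
pairwise distinct, and `C b` is not contained in `C a` when `4 ≤ a < b`. -/
theorem result :
    ¬ (C '' Set.Ioi (1 : ℝ)).Countable ∧
    Set.InjOn C (Set.Ici (4 : ℝ)) ∧
    ∀ a b : ℝ, 4 ≤ a → a < b → ¬ (C b ⊆ C a) := by
  refine ⟨fun hc => ?_, injOn, fun a b ha hab => not_subset ha hab⟩
  have hsub : Set.Ici (4 : ℝ) ⊆ Set.Ioi 1 := by
    intro z hz
    simp only [Set.mem_Ici, Set.mem_Ioi] at *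
    linarith
  have h1 : (C '' Set.Ici (4 : ℝ)).Countable := hc.mono (Set.image_mono hsub)
  have h2 : (Set.Ici (4 : ℝ)).Countable := Set.countable_of_injective_of_countable_image injOn h1
  have h3 := Cardinal.le_aleph0_iff_set_countable.2 h2
  rw [Cardinal.mk_Ici_real] at h3
  exact absurd h3 (not_le.2 Cardinal.aleph0_lt_continuum)

end Pool.Agent.Results.MP_922b49_co.UncountablyManyClasses
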